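import Pool.Agent.MP_13e7a1_an.H71.Unfold

/-!
The fourth term of the density: `θθ̄∂u ∧ ∂̄u = -θ∂̄u ∧ θ̄∂u`.
-/

open scoped ContDiff Topology Matrix
open Complex

noncomputable section

namespace Pool.Agent.MP_13e7a1_an.H71

open Pool.Agent.MP_13e7a1_an.H82

/-- Real multilinear forms. -/
def ML {k : ℕ} (α : Form k) : Prop :=
  ∃ m : MultilinearMap ℝ (fun _ : Fin k => E) ℂ, ∀ v, α v = m v

theorem ml_of {k : ℕ} (α : Form k)
    (h1 : ∀ v i x y, α (Function.update v i (x + y)) =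
      α (Function.update v i x) + α (Function.update v i y))
    (h2 : ∀ v i (c : ℝ) x, α (Function.update v i (c • x)) = c • α (Function.update v i x)) :
    ML α :=
  ⟨MultilinearMap.mk' α h1 h2, fun _ => rfl⟩

theorem ML.neg {k : ℕ} {α : Form k} (h : ML α) : ML (-α) := by
  obtain ⟨m, hm⟩ := h
  exact ⟨-m, fun v => by simp [hm]⟩

theorem ML.proj {k : ℕ} {α : Form k} (h : ML α) (A : E →L[ℝ] E) (p : ℕ) : ML (proj A p α) := by
  obtain ⟨m, hm⟩ := h
  refine ⟨∑ S ∈ Finset.powersetCard p (Finset.univ : Finset (Fin k)), ∑ T : Finset (Fin k),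
    ((∏ m ∈ T, if m ∈ S then -Complex.I else Complex.I) / 2 ^ k : ℂ) •
      m.compLinearMap (fun i => if i ∈ T then (A : E →ₗ[ℝ] E) else LinearMap.id), fun v => ?_⟩
  unfold H82.proj
  simp only [sum_apply, smul_apply, smul_eq_mul,
    MultilinearMap.compLinearMap_apply, hm]
  refine Finset.sum_congr rfl fun S _ => Finset.sum_congr rfl fun T _ => ?_
  congr 2
  funext i
  split_ifs <;> rfl

theorem wedge_alt {k l : ℕ} {α : Form k} {β : Form l} (hα : ML α) (hβ : ML β) :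
    ∃ m : E [⋀^Fin (k + l)]→ₗ[ℝ] ℂ, ∀ v, wedge α β v = m v := by
  obtain ⟨a, ha⟩ := hα
  obtain ⟨b, hb⟩ := hβ
  refine ⟨(((k.factorial : ℂ) * (l.factorial : ℂ))⁻¹ : ℂ) • MultilinearMap.alternatization
    (((LinearMap.mul' ℝ ℂ).compMultilinearMap (a.domCoprod b)).domDomCongr finSumFinEquiv),
    fun v => ?_⟩
  unfold wedge
  simp only [AlternatingMap.smul_apply, MultilinearMap.alternatization_apply, smul_eq_mul,
    MultilinearMap.domDomCongr_apply, LinearMap.compMultilinearMap_apply,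
    MultilinearMap.domCoprod_apply, LinearMap.mul'_apply, finSumFinEquiv_apply_left,
    finSumFinEquiv_apply_right, ha, hb]
  rw [div_eq_inv_mul]
  congr 1
  refine Finset.sum_congr rfl fun σ _ => ?_
  rw [Units.smul_def, zsmul_eq_mul, mul_assoc]

theorem alt_zero (m : E [⋀^Fin 4]→ₗ[ℝ] ℂ) (b : Module.Basis (Fin 4) ℝ E) (h : m b = 0) :
    m = 0 := by
  refine b.ext_alternating fun i hi => ?_
  have := m.map_perm b (Equiv.ofBijective i (Finite.injective_iff_bijective.1 hi))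
  rw [h, smul_zero] at this
  exact this

theorem exists_adapted (A : E →L[ℝ] E) (hA : ∀ Z, A (A Z) = -Z) :
    ∃ u w : E, LinearIndependent ℝ ![u, A u, w, A w] := by
  have hu : bas 0 ≠ 0 := by
    intro h
    have := congrArg (fun z : E => z 0) h
    simp [bas] at this
  set u := bas 0
  have hlt : Submodule.span ℝ (Set.range ![u, A u]) ≠ ⊤ := by
    intro h
    have h1 := finrank_range_le_card (R := ℝ) ![u, A u]
    rw [Set.finrank, h] at h1
    simp at h1
  obtain ⟨w, hw⟩ : ∃ w, w ∉ Submodule.span ℝ (Set.range ![u, A u]) := by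
    by_contra hcon
    push Not at hcon
    exact hlt (Submodule.eq_top_iff'.2 hcon)
  refine ⟨u, w, Fintype.linearIndependent_iff.2 fun c hc => ?_⟩
  simp only [Fin.sum_univ_four, Matrix.cons_val_zero, Matrix.cons_val_one, Matrix.cons_val] at hc
  have hc' := congrArg A hc
  simp only [map_add, map_smul, hA, map_zero] at hc'
  have h23 : c 2 ^ 2 + c 3 ^ 2 = 0 := by
    by_contra hne
    apply hw
    rw [Submodule.mem_span_range_iff_exists_fun]
    refine ⟨![-(c 2 * c 0 + c 3 * c 1) / (c 2 ^ 2 + c 3 ^ 2),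
      -(c 2 * c 1 - c 3 * c 0) / (c 2 ^ 2 + c 3 ^ 2)], ?_⟩
    simp only [Fin.sum_univ_two, Matrix.cons_val_zero, Matrix.cons_val_one]
    apply smul_right_injective E hne
    simp only [smul_add, smul_smul, mul_div_cancel₀ _ hne]
    linear_combination (norm := module) -(c 2) • hc + (c 3) • hc'
  have h2 : c 2 = 0 := by nlinarith [sq_nonneg (c 2), sq_nonneg (c 3)]
  have h3 : c 3 = 0 := by nlinarith [sq_nonneg (c 2), sq_nonneg (c 3)]
  rw [h2, h3] at hc hc'
  have h01 : (c 0 ^ 2 + c 1 ^ 2) • u = 0 := by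
    linear_combination (norm := module) (c 0) • hc - (c 1) • hc'
  have h01' : c 0 ^ 2 + c 1 ^ 2 = 0 := (smul_eq_zero.1 h01).resolve_right hu
  have h0 : c 0 = 0 := by nlinarith [sq_nonneg (c 0), sq_nonneg (c 1)]
  have h1 : c 1 = 0 := by nlinarith [sq_nonneg (c 0), sq_nonneg (c 1)]
  intro i
  fin_cases i <;> assumption

theorem upd20 (X Y W : E) : Function.update ![X, Y] 0 W = ![W, Y] := by
  funext i; fin_cases i <;> simp

theorem upd21 (X Y W : E) : Function.update ![X, Y] 1 W = ![X, W] := by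
  funext i; fin_cases i <;> simp

theorem upd30 (X Y Z W : E) : Function.update ![X, Y, Z] 0 W = ![W, Y, Z] := by
  funext i; fin_cases i <;> simp

theorem upd31 (X Y Z W : E) : Function.update ![X, Y, Z] 1 W = ![X, W, Z] := by
  funext i; fin_cases i <;> simp

theorem upd32 (X Y Z W : E) : Function.update ![X, Y, Z] 2 W = ![X, Y, W] := by
  funext i; fin_cases i <;> simp

/-- Type count for a `3`-form against a `(0,1)`-form, on an adapted basis. -/
theorem type31 (A : E →L[ℝ] E) (hA : ∀ Z, A (A Z) = -Z) (τ : Form 3) (hτ : ML τ) (q : Form 1)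
    (hq : ∀ X, q ![A X] = -I * q ![X]) (u w : E) :
    wedge (proj A 2 τ) q ![u, A u, w, A w] = wedge τ q ![u, A u, w, A w] := by
  obtain ⟨m, hm⟩ := hτ
  have n0 : ∀ X Y Z, τ ![-X, Y, Z] = -τ ![X, Y, Z] := by
    intro X Y Z
    have := m.map_update_neg ![X, Y, Z] 0 X
    rwa [upd30, upd30, ← hm, ← hm] at this
  have n1 : ∀ X Y Z, τ ![X, -Y, Z] = -τ ![X, Y, Z] := by
    intro X Y Z
    have := m.map_update_neg ![X, Y, Z] 1 Y
    rwa [upd31, upd31, ← hm, ← hm] at this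
  have n2 : ∀ X Y Z, τ ![X, Y, -Z] = -τ ![X, Y, Z] := by
    intro X Y Z
    have := m.map_update_neg ![X, Y, Z] 2 Z
    rwa [upd32, upd32, ← hm, ← hm] at this
  rw [wedge31_sum, wedge31_sum,
    sum_perm4 (fun a b c d => proj A 2 τ ![![u, A u, w, A w] a, ![u, A u, w, A w] b,
      ![u, A u, w, A w] c] * q ![![u, A u, w, A w] d]),
    sum_perm4 (fun a b c d => τ ![![u, A u, w, A w] a, ![u, A u, w, A w] b,
      ![u, A u, w, A w] c] * q ![![u, A u, w, A w] d])]
  simp only [proj32, Matrix.cons_val_zero, Matrix.cons_val_one, Matrix.cons_val, hA, n0, n1, n2,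
    hq]
  have hI : I ^ 2 = -1 := I_sq
  grind

/-- Type count for a `2`-form against a `(0,2)`-form, on an adapted basis. -/
theorem type22 (A : E →L[ℝ] E) (hA : ∀ Z, A (A Z) = -Z) (σ : Form 2) (hσ : ML σ) (g : Form 2)
    (hg0 : ∀ X Y, g ![A X, Y] = -I * g ![X, Y]) (hg1 : ∀ X Y, g ![X, A Y] = -I * g ![X, Y])
    (hg : ∀ X Y, g ![Y, X] = -g ![X, Y]) (u w : E) :
    wedge (proj A 2 σ) g ![u, A u, w, A w] = wedge σ g ![u, A u, w, A w] := by
  obtain ⟨m, hm⟩ := hσ
  have n0 : ∀ X Y, σ ![-X, Y] = -σ ![X, Y] := by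
    intro X Y
    have := m.map_update_neg ![X, Y] 0 X
    rwa [upd20, upd20, ← hm, ← hm] at this
  have n1 : ∀ X Y, σ ![X, -Y] = -σ ![X, Y] := by
    intro X Y
    have := m.map_update_neg ![X, Y] 1 Y
    rwa [upd21, upd21, ← hm, ← hm] at this
  have hd : ∀ X, g ![X, X] = 0 := fun X => by
    have := hg X X
    linear_combination this / 2
  rw [wedge22_sum, wedge22_sum,
    sum_perm4 (fun a b c d => proj A 2 σ ![![u, A u, w, A w] a, ![u, A u, w, A w] b] *
      g ![![u, A u, w, A w] c, ![u, A u, w, A w] d]),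
    sum_perm4 (fun a b c d => σ ![![u, A u, w, A w] a, ![u, A u, w, A w] b] *
      g ![![u, A u, w, A w] c, ![u, A u, w, A w] d])]
  simp only [proj22, Matrix.cons_val_zero, Matrix.cons_val_one, Matrix.cons_val, hA, n0, n1,
    hg0, hg1, hd, hg u w]
  have hI : I ^ 2 = -1 := I_sq
  grind

theorem ml1 (q : E →L[ℝ] ℂ) : ML (fun v : Fin 1 → E => q (v 0)) :=
  ⟨MultilinearMap.mk' (fun v : Fin 1 → E => q (v 0))
    (fun v i x y => by fin_cases i; simp) (fun v i c x => by fin_cases i; simp), fun _ => rfl⟩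

theorem ml2 (g : E →L[ℝ] E →L[ℝ] ℂ) : ML (fun v : Fin 2 → E => g (v 0) (v 1)) :=
  ⟨MultilinearMap.mk' (fun v : Fin 2 → E => g (v 0) (v 1))
    (fun v i x y => by fin_cases i <;> simp) (fun v i c x => by fin_cases i <;> simp), fun _ => rfl⟩

/-- A `(0,3)`-form vanishes. -/
theorem cyc (A : E →L[ℝ] E) (hA : ∀ Z, A (A Z) = -Z) (g : E →L[ℝ] E →L[ℝ] ℂ)
    (hg0 : ∀ X Y, g (A X) Y = -I * g X Y) (hg : ∀ X Y, g Y X = -g X Y) (q : E →L[ℝ] ℂ)
    (hq : ∀ X, q (A X) = -I * q X) (X Y Z : E) :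
    g X Y * q Z - g X Z * q Y + g Y Z * q X = 0 := by
  obtain ⟨u, w, hli⟩ := exists_adapted A hA
  have hsp : ∀ X : E, ∃ c : Fin 4 → ℝ, X = c 0 • u + c 1 • A u + c 2 • w + c 3 • A w := by
    intro X
    have h : X ∈ Submodule.span ℝ (Set.range ![u, A u, w, A w]) := by
      rw [hli.span_eq_top_of_card_eq_finrank' (by simp)]
      trivial
    obtain ⟨c, hc⟩ := (Submodule.mem_span_range_iff_exists_fun ℝ).1 h
    exact ⟨c, by simpa [Fin.sum_univ_four] using hc.symm⟩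
  have hg1 : ∀ X Y, g X (A Y) = -I * g X Y := fun X Y => by
    rw [hg (A Y) X, hg0, hg Y X]; ring
  have hd : ∀ X, g X X = 0 := fun X => by
    have := hg X X
    linear_combination this / 2
  obtain ⟨a, rfl⟩ := hsp X
  obtain ⟨b, rfl⟩ := hsp Y
  obtain ⟨c, rfl⟩ := hsp Z
  simp only [map_add, map_smul, add_apply, smul_apply,
    hg0, hg1, hq, hd, hg u w, Complex.real_smul]
  ring

theorem fderiv_proj1 (J : E → E →L[ℝ] E) (x : E) (hJ : DifferentiableAt ℝ J x) (q : E →L[ℝ] ℂ)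
    (c : ℂ) (X Z : E) :
    fderiv ℝ (fun y => (q X + c * q (J y X)) / 2) x Z = c * q (fderiv ℝ J x Z X) / 2 := by
  have h1 : HasFDerivAt (fun y => J y X) ((fderiv ℝ J x).flip X) x := by
    simpa using hJ.hasFDerivAt.clm_apply (hasFDerivAt_const X x)
  have h2 := (((q.hasFDerivAt.comp x h1).const_mul c).const_add (q X)).mul_const (1 / 2 : ℂ)
  have h3 : (fun y => (q X + c * q (J y X)) / 2) =
      fun y => (q X + c * (q ∘ fun y => J y X) y) * (1 / 2 : ℂ) := by
    funext y; simp [div_eq_mul_inv]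
  rw [h3, h2.fderiv]
  simp
  ring

theorem fderiv_proj2 (J : E → E →L[ℝ] E) (x : E) (hJ : DifferentiableAt ℝ J x)
    (g : E →L[ℝ] E →L[ℝ] ℂ) (X Y Z : E) :
    fderiv ℝ (fun y => (g X Y + I * g (J y X) Y + I * g X (J y Y) - g (J y X) (J y Y)) / 4) x Z =
      (I * g (fderiv ℝ J x Z X) Y + I * g X (fderiv ℝ J x Z Y)
        - g (fderiv ℝ J x Z X) (J x Y) - g (J x X) (fderiv ℝ J x Z Y)) / 4 := by
  have h1 : ∀ X, HasFDerivAt (fun y => J y X) ((fderiv ℝ J x).flip X) x := fun X => by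
    simpa using hJ.hasFDerivAt.clm_apply (hasFDerivAt_const X x)
  have ha := (g.flip Y).hasFDerivAt.comp x (h1 X)
  have hb := (g X).hasFDerivAt.comp x (h1 Y)
  have hc := g.hasFDerivAt_of_bilinear (h1 X) (h1 Y)
  have h2 := ((((ha.const_mul I).const_add (g X Y)).add (hb.const_mul I)).sub hc).mul_const
    (1 / 4 : ℂ)
  have h3 : (fun y => (g X Y + I * g (J y X) Y + I * g X (J y Y) - g (J y X) (J y Y)) / 4) =
      fun y => ((((fun y => g X Y + I * ((g.flip Y) ∘ fun y => J y X) y) +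
        fun y => I * ((g X) ∘ fun y => J y Y) y) - fun y => g (J y X) (J y Y)) y) * (1 / 4 : ℂ) := by
    funext y; simp [div_eq_mul_inv]
  rw [h3, h2.fderiv]
  simp
  ring

theorem main (J : E → E →L[ℝ] E) (x : E) (hJ : DifferentiableAt ℝ J x)
    (hA : ∀ Z, J x (J x Z) = -Z) (g : E →L[ℝ] E →L[ℝ] ℂ)
    (hg0 : ∀ X Y, g (J x X) Y = -I * g X Y) (hg : ∀ X Y, g Y X = -g X Y) (q : E →L[ℝ] ℂ)
    (hq : ∀ X, q (J x X) = -I * q X) (G : Form 2) (hG : G = fun v => g (v 0) (v 1)) (Q : Form 1)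
    (hQ : Q = fun v => q (v 0)) :
    wedge (theta J 0 G x) Q bas = -wedge (theta J 0 Q x) G bas := by
  have hg1 : ∀ X Y, g X (J x Y) = -I * g X Y := fun X Y => by
    rw [hg (J x Y) X, hg0, hg Y X]; ring
  have hI : I ^ 2 = -1 := I_sq
  set D := fderiv ℝ J x with hD
  have eτ : extd (fun y => proj (J y) 0 G) x = fun v : Fin 3 → E => I / 2 *
      (g (D (v 0) (v 1)) (v 2) + g (v 1) (D (v 0) (v 2)) - g (D (v 1) (v 0)) (v 2)
        - g (v 0) (D (v 1) (v 2)) + g (D (v 2) (v 0)) (v 1) + g (v 0) (D (v 2) (v 1))) := by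
    funext v
    rw [extd2]
    simp only [proj20, hG, Matrix.cons_val_zero, Matrix.cons_val_one,
      fderiv_proj2 J x hJ, hg0, hg1]
    ring
  have eσ : extd (fun y => proj (J y) 0 Q) x = fun v : Fin 2 → E => I / 2 *
      (q (D (v 0) (v 1)) - q (D (v 1) (v 0))) := by
    funext v
    rw [extd1]
    simp only [proj10, hQ, Matrix.cons_val_zero, fderiv_proj1 J x hJ]
    ring
  have mτ : ML (extd (fun y => proj (J y) 0 G) x) := by
    rw [eτ]
    refine ml_of _ (fun v i a b => ?_) (fun v i c a => ?_)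
    · fin_cases i <;> simp <;> ring
    · fin_cases i <;> simp <;> ring
  have mσ : ML (extd (fun y => proj (J y) 0 Q) x) := by
    rw [eσ]
    refine ml_of _ (fun v i a b => ?_) (fun v i c a => ?_)
    · fin_cases i <;> simp <;> ring
    · fin_cases i <;> simp <;> ring
  have mG : ML G := hG ▸ ml2 g
  have mQ : ML Q := hQ ▸ ml1 q
  obtain ⟨m₁, hm₁⟩ := wedge_alt (mτ.proj (J x) 2) mQ
  obtain ⟨m₂, hm₂⟩ := wedge_alt (mσ.proj (J x) 2) mG
  obtain ⟨u, w, hli⟩ := exists_adapted (J x) hA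
  have hz : (m₁ + m₂ : E [⋀^Fin 4]→ₗ[ℝ] ℂ) = 0 := by
    refine alt_zero _ (basisOfLinearIndependentOfCardEqFinrank hli (by simp)) ?_
    rw [coe_basisOfLinearIndependentOfCardEqFinrank, AlternatingMap.add_apply, ← hm₁, ← hm₂,
      type31 (J x) hA _ mτ Q (by simp [hQ, hq]), type22 (J x) hA _ mσ G (by simp [hG, hg0])
        (by simp [hG, hg1]) (fun X Y => by simpa [hG] using hg X Y), eτ, eσ]
    generalize ![u, J x u, w, J x w] = v
    rw [wedge31_sum, wedge22_sum, hG, hQ]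
    simp only [Matrix.cons_val_zero, Matrix.cons_val_one, Matrix.cons_val]
    rw [sum_perm4 (fun a b c d => I / 2 *
      (g (D (v a) (v b)) (v c) + g (v b) (D (v a) (v c)) - g (D (v b) (v a)) (v c)
        - g (v a) (D (v b) (v c)) + g (D (v c) (v a)) (v b) + g (v a) (D (v c) (v b))) * q (v d)),
      sum_perm4 (fun a b c d => I / 2 * (q (D (v a) (v b)) - q (D (v b) (v a))) * g (v c) (v d))]
    have C := fun a b c d => cyc (J x) hA g hg0 hg q hq (D (v a) (v b)) (v c) (v d)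
    have hs : ∀ a b c, g (v c) (D (v a) (v b)) = -g (D (v a) (v b)) (v c) := fun a b c => hg _ _
    simp only [hs, hg (v 0) (v 1), hg (v 0) (v 2), hg (v 0) (v 3), hg (v 1) (v 2), hg (v 1) (v 3),
      hg (v 2) (v 3)]
    linear_combination I / 2 * (C 0 1 2 3 - C 1 0 2 3 - C 0 2 1 3 + C 2 0 1 3 + C 0 3 1 2
      - C 3 0 1 2 + C 1 2 0 3 - C 2 1 0 3 - C 1 3 0 2 + C 3 1 0 2 + C 2 3 0 1 - C 3 2 0 1)
  have h1 := congrArg (fun m : E [⋀^Fin 4]→ₗ[ℝ] ℂ => m bas) hz
  simp only [AlternatingMap.add_apply, AlternatingMap.zero_apply] at h1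
  rw [← hm₁, ← hm₂] at h1
  have hneg : ∀ {k l : ℕ} (α : Form k) (β : Form l) (v : Fin (k + l) → E),
      wedge (-α) β v = -wedge α β v := by
    intro k l α β v
    simp [wedge, neg_div]
  unfold theta
  rw [hneg, hneg]
  linear_combination -h1

theorem sb3 : SB3 := by
  intro J hJ hsq P x
  have hd : DifferentiableAt ℝ J x := hJ.differentiable (by simp) x
  have hI : I ^ 2 = -1 := I_sq
  obtain ⟨q, hq⟩ : ∃ q : E →L[ℝ] ℂ, ∀ X, q X = ((P X : ℂ) + I * (P (J x X) : ℂ)) / 2 :=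
    ⟨(1 / 2 : ℂ) • (Complex.ofRealCLM.comp P + I • Complex.ofRealCLM.comp (P.comp (J x))),
      fun X => by simp; ring⟩
  obtain ⟨r, hr⟩ : ∃ r : E →L[ℝ] ℂ, ∀ X, r X = ((P X : ℂ) - I * (P (J x X) : ℂ)) / 2 :=
    ⟨(1 / 2 : ℂ) • (Complex.ofRealCLM.comp P - I • Complex.ofRealCLM.comp (P.comp (J x))),
      fun X => by simp; ring⟩
  obtain ⟨s, hs⟩ : ∃ s : E →L[ℝ] E →L[ℝ] ℂ, ∀ X Y,
      s X Y = -I * r (fderiv ℝ J x X Y) / 2 - -I * r (fderiv ℝ J x Y X) / 2 :=
    ⟨(-I / 2 : ℂ) • ((ContinuousLinearMap.compL ℝ E E ℂ r).comp (fderiv ℝ J x)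
      - ((ContinuousLinearMap.compL ℝ E E ℂ r).comp (fderiv ℝ J x)).flip),
      fun X Y => by simp; ring⟩
  obtain ⟨g, hg⟩ : ∃ g : E →L[ℝ] E →L[ℝ] ℂ, ∀ X Y,
      g X Y = -((s X Y + I * s (J x X) Y + I * s X (J x Y) - s (J x X) (J x Y)) / 4) :=
    ⟨(-1 / 4 : ℂ) • (s + I • s.comp (J x) + I • (s.flip.comp (J x)).flip
      - s.bilinearComp (J x) (J x)), fun X Y => by simp; ring⟩
  have hs' : ∀ X Y, s Y X = -s X Y := fun X Y => by rw [hs, hs]; ring
  refine main J x hd (hsq x) g (fun X Y => ?_) (fun X Y => ?_) q (fun X => ?_) _ ?_ _ ?_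
  · simp only [hg, hsq, map_neg, neg_apply]
    linear_combination (-(s (J x X) Y) / 4 - s X (J x Y) / 4) * hI
  · rw [hg, hg, hs' X Y, hs' X (J x Y), hs' (J x X) Y, hs' (J x X) (J x Y)]
    ring
  · simp only [hq, hsq, map_neg, Complex.ofReal_neg]
    linear_combination (P (J x X) : ℂ) / 2 * hI
  · have e1 : proj (J x) 1 (form1 P) = fun v => r (v 0) := by
      funext v
      simp [proj11, form1, hr]
    have e2 : extd (fun y => proj (J y) 1 (fun v : Fin 1 → E => r (v 0))) x =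
        fun v : Fin 2 → E => s (v 0) (v 1) := by
      funext v
      rw [extd1, hs]
      simp only [proj11, Matrix.cons_val_zero, sub_eq_add_neg, ← neg_mul, fderiv_proj1 J x hd]
    funext v
    unfold thetaBar
    rw [e1, e2, hg, Pi.neg_apply, proj20]
    simp
  · funext v
    simp [proj10, form1, hq]

theorem b3 : SLinB → SB3 := fun _ => sb3

end Pool.Agent.MP_13e7a1_an.H71
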