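import Pool.Agent.MP_13e7a1_an.H82.Tools

/-!
Integration by parts identities.
-/

open scoped ContDiff Topology Matrix
open Set Metric MeasureTheory Filter

noncomputable section

namespace Pool.Agent.MP_13e7a1_an.H71

open Pool.Agent.MP_13e7a1_an.H82

/-- The Euclidean star of a 2-form. -/
def st (t : Mat) : Mat :=
  !![0, t 2 3, -t 1 3, t 1 2; -t 2 3, 0, t 0 3, -t 0 2; t 1 3, -t 0 3, 0, t 0 1;
    -t 1 2, t 0 2, -t 0 1, 0]

/-- The divergence of the star of a field of 2-forms. -/
def dv (t : E → Mat) (x : E) : V := fun j => ∑ i, pd i (fun y => st (t y) i j) x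

theorem smM_st {t : E → Mat} (h : SmM t) : SmM fun x => st (t x) := by
  intro i j
  fin_cases i <;> fin_cases j <;> simp only [st] <;>
    first
    | exact contDiff_const
    | exact h _ _
    | exact (h _ _).neg

theorem contDiff_dv {t : E → Mat} (h : SmM t) : ContDiff ℝ ∞ (dv t) :=
  contDiff_pi.2 fun j => ContDiff.sum fun i _ => contDiff_pd (smM_st h i j) i

theorem integral_div {D : Set E} (hD : IsCompact D) {W : E → V} (hW : ContDiff ℝ ∞ W)
    (h0 : ∀ x, x ∉ D → W x = 0) : ∫ x in D, ∑ i, pd i (fun y => W y i) x = 0 := by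
  rw [integral_finsetSum _ fun i _ => intOn hD (contDiff_pd (comp_diff hW i) i).continuous]
  exact Finset.sum_eq_zero fun i _ =>
    integral_pd hD (comp_diff hW i) (fun x hx => by simp [h0 x hx]) i

theorem pf_d1 (a : E → V) (t : Mat) (x : E) :
    pf (d1 a x) t = ∑ i, ∑ j, st t i j * pd i (fun y => a y j) x := by
  simp [pf, d1_apply, st, Fin.sum_univ_four]
  ring

/-- Stokes for the 3-form `a ∧ t`. -/
theorem stokes {D : Set E} (hD : IsCompact D) {a : E → V} {t : E → Mat} (ha : ContDiff ℝ ∞ a)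
    (ht : SmM t) (h0 : ∀ x, x ∉ D → a x = 0 ∨ t x = 0) :
    ∫ x in D, (pf (d1 a x) (t x) + a x ⬝ᵥ dv t x) = 0 := by
  have hs := smM_st ht
  rw [← integral_div hD (W := fun y i => ∑ j, a y j * st (t y) i j)
    (contDiff_pi.2 fun i => ContDiff.sum fun j _ => (comp_diff ha j).mul (hs i j)) ?_]
  · refine int_congr hD fun x _ => ?_
    have h : ∀ i, pd i (fun y => ∑ j, a y j * st (t y) i j) x =
        ∑ j, (a x j * pd i (fun y => st (t y) i j) x + st (t x) i j * pd i (fun y => a y j) x) := by
      intro i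
      rw [pd_sum _ fun j _ => diffAt ((comp_diff ha j).mul (hs i j)) x]
      exact Finset.sum_congr rfl fun j _ => pd_mul (diffAt (comp_diff ha j) x) (diffAt (hs i j) x) i
    simp only [h]
    simp only [pf_d1, dv, dotProduct, Fin.sum_univ_four]
    ring
  · intro x hx
    funext i
    rcases h0 x hx with h | h
    · simp [h]
    · have : st 0 = 0 := by
        ext i j; fin_cases i <;> fin_cases j <;> simp [st]
      simp [h, this]

theorem pd_d1 {b : E → V} (hb : ContDiff ℝ ∞ b) (i j k : Fin 4) (x : E) :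
    pd i (fun y => d1 b y j k) x =
      pd i (pd j fun y => b y k) x - pd i (pd k fun y => b y j) x :=
  pd_sub (diffAt (contDiff_pd (comp_diff hb k) j) x) (diffAt (contDiff_pd (comp_diff hb j) k) x) i

theorem dv_d1 {b : E → V} (hb : ContDiff ℝ ∞ b) (x : E) : dv (d1 b) x = 0 := by
  funext j
  have hc := fun k i j => pd_comm (comp_diff hb k) i j x
  fin_cases j <;> simp [dv, st, Fin.sum_univ_four, pd_neg, pd_d1 hb] <;>
    linarith [hc 0 1 2, hc 0 1 3, hc 0 2 3, hc 1 0 2, hc 1 0 3, hc 1 2 3, hc 2 0 1, hc 2 0 3,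
      hc 2 1 3, hc 3 0 1, hc 3 0 2, hc 3 1 2]

/-- Stokes for the 3-form `h a ∧ t`. -/
theorem stokes' {D : Set E} (hD : IsCompact D) {h : E → ℝ} {a : E → V} {t : E → Mat}
    (hh : ContDiff ℝ ∞ h) (ha : ContDiff ℝ ∞ a) (ht : SmM t)
    (h0 : ∀ x, x ∉ D → h x = 0 ∨ a x = 0 ∨ t x = 0) :
    ∫ x in D, h x * pf (d1 a x) (t x) =
      -(∫ x in D, pf (wd (grad h x) (a x)) (t x)) - ∫ x in D, h x * (a x ⬝ᵥ dv t x) := by
  have h1 := stokes hD (a := fun y => h y • a y) (hh.smul ha) ht fun x hx => by
    rcases h0 x hx with h' | h' | h' <;> simp [h']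
  have c1 : Continuous fun x => h x * pf (d1 a x) (t x) :=
    hh.continuous.mul (continuous_pf (SmM.continuous (contDiff_d1 ha)) ht.continuous)
  have c2 : Continuous fun x => pf (wd (grad h x) (a x)) (t x) :=
    continuous_pf (continuous_wd (continuous_grad hh) ha.continuous) ht.continuous
  have c3 : Continuous fun x => h x * (a x ⬝ᵥ dv t x) :=
    hh.continuous.mul (ha.continuous.dotProduct (contDiff_dv ht).continuous)
  rw [int_congr hD (g := fun x => (h x * pf (d1 a x) (t x) + pf (wd (grad h x) (a x)) (t x))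
    + h x * (a x ⬝ᵥ dv t x)) fun x _ => by
      rw [d1_smul hh ha, pf_add_left, pf_smul_left, smul_dotProduct, smul_eq_mul]; ring,
    int_add hD (c1.fun_add c2) c3, int_add hD c1 c2] at h1
  linarith

variable (c : Ctx)

theorem ibp {D : Set E} (hD : IsCompact D) {h a b : E → ℝ} (hh : ContDiff ℝ ∞ h)
    (ha : ContDiff ℝ ∞ a) (hb : ContDiff ℝ ∞ b)
    (h0 : ∀ x, x ∉ D → h x = 0 ∨ grad a x = 0 ∨ ddc c.J b x = 0) :
    ∫ x in D, h x * c.w (ddc c.J a x) (ddc c.J b x) =
      -∫ x in D, c.w (c.s x (grad h x) (grad a x)) (ddc c.J b x) := by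
  have h1 := stokes' hD hh (c.contDiff_dc ha) (c.smM_ddc hb) fun x hx => by
    rcases h0 x hx with h' | h' | h' <;> simp [h']
  have h2 : ∀ x, dv (ddc c.J b) x = 0 := dv_d1 (c.contDiff_dc hb)
  simp only [h2, dotProduct_zero, mul_zero, integral_zero, sub_zero] at h1
  simp only [Ctx.w, mul_left_comm (h _) c.o, integral_const_mul]
  rw [← mul_neg]
  congr 1

theorem ddc_zero_off {D : Set E} (hD : IsClosed D) {h : E → ℝ} (h0 : ∀ x, x ∉ D → h x = 0)
    {x : E} (hx : x ∉ D) : ddc c.J h x = 0 := by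
  rw [c.ddc_congr (eventually_zero hD h0 hx), c.ddc_const]

theorem w_inv_ddc (hB : SLinB) (hP : SPt) {x : E} {β : Mat} (h : IsInv (c.M x) β) {b : E → ℝ}
    (hb : ContDiff ℝ ∞ b) : c.w β (ddc c.J b x) = c.w β (c.T b x) := by
  rw [hP.split c b hb, c.w_add_right, c.w_orth hB h (c.Nu_anti x _), add_zero]

theorem w_anti_ddc (hB : SLinB) (hP : SPt) {x : E} {β : Mat} (h : IsAnti (c.M x) β) {b : E → ℝ}
    (hb : ContDiff ℝ ∞ b) : c.w β (ddc c.J b x) = c.w β (c.Nu x (grad b x)) := by
  rw [hP.split c b hb, c.w_add_right, c.w_comm β (c.T b x), c.w_orth hB (c.T_inv b x) h, zero_add]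

theorem N_eq (hB : SLinB) (hP : SPt) {D : Set E} (hD : IsCompact D) {h a b : E → ℝ}
    (hh : ContDiff ℝ ∞ h) (ha : ContDiff ℝ ∞ a) (hb : ContDiff ℝ ∞ b)
    (h0 : ∀ x, x ∉ D → h x = 0) :
    c.N D h a b = -(∫ x in D, c.w (c.s x (grad h x) (grad a x)) (ddc c.J b x))
      - ∫ x in D, h x * c.n x (grad a x) (grad b x) := by
  rw [← ibp c hD hh ha hb fun x hx => Or.inl (h0 x hx),
    ← int_sub hD
      (hh.continuous.fun_mul (c.continuous_w (c.continuous_ddc ha) (c.continuous_ddc hb)))
      (hh.continuous.fun_mul (c.continuous_n (continuous_grad ha) (continuous_grad hb)))]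
  refine int_congr hD fun x _ => ?_
  rw [hP.split c a ha, c.w_add_left, w_inv_ddc c hB hP (c.T_inv a x) hb,
    w_anti_ddc c hB hP (c.Nu_anti x _) hb, Ctx.n]
  ring

theorem intA : SLinB → SPt → SIntA := by
  intro hB hP
  refine ⟨fun c D hD φ a b hφ ha hb h0 => ?_, fun c D hD F G S hF hG hS hF0 hG0 => ?_,
    fun c D hD g S ψ hg hS hψ h0 => ?_⟩
  · have k1 := ibp c hD ha hφ hb fun x hx => Or.inr (Or.inl (grad_zero_off hD.isClosed h0 hx))
    have k2 := ibp c hD ha hb hφ fun x hx => Or.inr (Or.inr (ddc_zero_off c hD.isClosed h0 hx))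
    have c1 := c.continuous_w (c.continuous_s (continuous_grad ha) (continuous_grad hb))
      (c.continuous_ddc hφ)
    have c2 := c.continuous_w (c.continuous_s (continuous_grad ha) (continuous_grad hφ))
      (c.continuous_ddc hb)
    have c3 := c.continuous_w (c.continuous_s (continuous_grad hφ) (continuous_grad ha))
      (c.continuous_ddc hb)
    have c4 : Continuous fun x => φ x * c.n x (grad a x) (grad b x) :=
      hφ.continuous.mul (c.continuous_n (continuous_grad ha) (continuous_grad hb))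
    rw [N_eq c hB hP hD hφ ha hb h0,
      int_congr hD (f := fun x => c.o * Eden c.J φ (grad a x) (grad b x) x)
        (g := fun x => ((c.w (c.s x (grad a x) (grad φ x)) (ddc c.J b x)
          - c.w (c.s x (grad a x) (grad b x)) (ddc c.J φ x))
          - c.w (c.s x (grad φ x) (grad a x)) (ddc c.J b x))
          - φ x * c.n x (grad a x) (grad b x)) fun x _ => by
        rw [c.Eden_eq, ← w_anti_ddc c hB hP (c.al_anti x _ _) hb, Ctx.al, c.w_sub_left]; ring,
      int_sub hD ((c2.fun_sub c1).fun_sub c3) c4, int_sub hD (c2.fun_sub c1) c3, int_sub hD c2 c1]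
    simp only [c.w_comm (ddc c.J φ _)] at k1
    linarith
  · have c1 := c.continuous_w (c.continuous_s (continuous_grad hF) (continuous_grad hG))
      (c.continuous_ddc hS)
    have c2 := c.continuous_w (c.continuous_s (continuous_grad hG) (continuous_grad hF))
      (c.continuous_ddc hS)
    rw [N_eq c hB hP hD hF hG hS hF0, N_eq c hB hP hD hG hF hS hG0,
      int_congr hD (f := fun x => c.w (c.al x (grad F x) (grad G x)) (c.Nu x (grad S x)))
        (g := fun x => c.w (c.s x (grad F x) (grad G x)) (ddc c.J S x)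
          - c.w (c.s x (grad G x) (grad F x)) (ddc c.J S x)) fun x _ => by
        rw [← w_anti_ddc c hB hP (c.al_anti x _ _) hS, Ctx.al, c.w_sub_left],
      int_sub hD c1 c2]
    ring
  · rw [N_eq c hB hP hD (h := fun x => ψ (g x)) (hψ.comp hg) hg hS h0]
    congr 2
    refine int_congr hD fun x _ => ?_
    rw [grad_comp hg hψ x, c.s_smul_left, c.w_smul_left, w_inv_ddc c hB hP (c.s_pos x _).1 hS]

theorem contDiff_mulVec {β : E → Mat} (h : SmM β) {p : E → V} (hp : ContDiff ℝ ∞ p) :
    ContDiff ℝ ∞ fun x => β x *ᵥ p x := contDiff_pi.2 fun i => by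
  simp only [Matrix.mulVec, dotProduct]
  exact ContDiff.sum fun k _ => (h i k).mul (comp_diff hp k)

theorem n_cj (hB : SLinB) (hP : SPt) (x : E) (p q : V) :
    c.n x (cj (c.M x) p) (cj (c.M x) q) = c.n x p q := by
  simp only [Ctx.n, hP.rot, Ctx.w]
  rw [hB.rot _ (c.M_sq x) _ _ (c.Nu_anti x p) (c.Nu_anti x q)]

theorem vec_eq (p : V) : p = p 0 • Pi.single 0 1 + p 1 • Pi.single 1 1 + p 2 • Pi.single 2 1
    + p 3 • Pi.single 3 1 := by
  ext i; fin_cases i <;> simp

/-- The torsion pairing as an antisymmetric matrix. -/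
def tb (x : E) : Mat := Matrix.of fun i j => -c.n x (Pi.single i 1) (cj (c.M x) (Pi.single j 1))

theorem tb_swap (hB : SLinB) (hP : SPt) (x : E) (i j : Fin 4) : tb c x j i = -tb c x i j := by
  simp only [tb, Matrix.of_apply]
  rw [← n_cj c hB hP x (Pi.single j 1), cj_cj (c.M_sq x), ← neg_one_smul ℝ (Pi.single i 1 : V),
    c.n_smul_right, c.n_comm]
  ring

theorem smM_tb : SmM (tb c) := fun i j => by
  simp only [tb, Matrix.of_apply, Ctx.n, Ctx.w]
  exact (contDiff_const.mul (SmM.pf (c.smM_Nu_const _)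
    (c.smM_Nu (contDiff_cj c.smM_M contDiff_const)))).neg

theorem pf_tb (hB : SLinB) (hP : SPt) (x : E) (p r : V) :
    pf (wd p r) (st (tb c x)) = -c.n x p (cj (c.M x) r) := by
  have hs := tb_swap c hB hP x
  have hd : ∀ i, tb c x i i = 0 := fun i => by linarith [hs i i]
  have h : -c.n x p (cj (c.M x) r) = ∑ i, ∑ j, p i * r j * tb c x i j := by
    conv_lhs => rw [vec_eq p, vec_eq r]
    simp only [cj_add, cj_smul, c.n_add_left, c.n_add_right, c.n_smul_left, c.n_smul_right,
      Fin.sum_univ_four, tb, Matrix.of_apply]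
    ring
  rw [h]
  simp [pf, wd_apply, st, Fin.sum_univ_four, hd, hs 0 1, hs 0 2, hs 0 3, hs 1 2, hs 1 3, hs 2 3]
  ring

theorem intB : SLinB → SPt → SIntB := by
  intro hB hP
  refine ⟨fun c => ⟨fun x => c.o • (c.M x *ᵥ dv c.Om x), ?_, fun D hD h g hh hg h0 => ?_⟩,
    fun c => ⟨fun x => -st (tb c x), fun x => c.M x *ᵥ dv (fun y => st (tb c y)) x
      - fun k => pf (c.Nu x (Pi.single k 1)) (st (tb c x)), ?_, ?_, fun D hD H a hH ha h0 => ?_⟩,
    fun X hX => ⟨fun x => ∑ i, pd i (fun y => X y i) x, ?_, fun D hD h a hh ha h0 => ?_⟩⟩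
  · exact (contDiff_mulVec c.smM_M (contDiff_dv c.smM_Om)).continuous.const_smul c.o
  · have h1 := stokes' hD hh (c.contDiff_dc hg) c.smM_Om fun x hx => Or.inl (h0 x hx)
    rw [int_congr hD (f := fun x => h x * c.w (c.T g x) (c.Om x))
        (g := fun x => c.o * (h x * pf (ddc c.J g x) (c.Om x))) fun x _ => by
        rw [c.w_comm, ← w_inv_ddc c hB hP (c.Om_pos x).1 hg, c.w_comm, Ctx.w]; ring,
      int_congr hD (f := fun x => h x * ((c.o • (c.M x *ᵥ dv c.Om x)) ⬝ᵥ grad g x))
        (g := fun x => -c.o * (h x * (cj (mat (c.J x)) (grad g x) ⬝ᵥ dv c.Om x))) fun x _ => by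
        rw [cj_dot, smul_dotProduct, dotProduct_comm, smul_eq_mul, Ctx.M]; ring]
    simp only [Ctx.w, integral_const_mul]
    rw [show (∫ x in D, h x * pf (ddc c.J g x) (c.Om x)) = _ from h1]
    simp only [Ctx.s, Ctx.M]
    ring
  · exact (smM_st (smM_tb c)).continuous.neg
  · exact (contDiff_mulVec c.smM_M (contDiff_dv (smM_st (smM_tb c)))).sub
      (contDiff_pi.2 fun k => SmM.pf (c.smM_Nu_const _) (smM_st (smM_tb c)))
  · have ht := smM_st (smM_tb c)
    have h1 := stokes' hD hH (c.contDiff_dc ha) ht fun x hx => Or.inl (h0 x hx)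
    have c1 : Continuous fun x => H x * pf (c.T a x) (st (tb c x)) :=
      hH.continuous.mul (continuous_pf (c.continuous_T ha) ht.continuous)
    have c2 : Continuous fun x => H x * pf (c.Nu x (grad a x)) (st (tb c x)) :=
      hH.continuous.mul (continuous_pf (c.continuous_Nu (continuous_grad ha)) ht.continuous)
    have c3 : Continuous fun x =>
        H x * (cj (mat (c.J x)) (grad a x) ⬝ᵥ dv (fun y => st (tb c y)) x) :=
      hH.continuous.mul ((c.contDiff_dc ha).continuous.dotProduct (contDiff_dv ht).continuous)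
    rw [int_congr hD (f := fun x => H x * pf (d1 (fun y => cj (mat (c.J y)) (grad a y)) x)
          (st (tb c x)))
        (g := fun x => H x * pf (c.T a x) (st (tb c x))
          + H x * pf (c.Nu x (grad a x)) (st (tb c x))) fun x _ => by
        rw [show d1 (fun y => cj (mat (c.J y)) (grad a y)) x = _ from hP.split c a ha x,
          pf_add_left]; ring,
      int_add hD c1 c2,
      int_congr hD (f := fun x => pf (wd (grad H x) (cj (mat (c.J x)) (grad a x))) (st (tb c x)))
        (g := fun x => c.n x (grad H x) (grad a x)) fun x _ => by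
        rw [pf_tb c hB hP, show mat (c.J x) = c.M x from rfl, cj_cj (c.M_sq x),
          ← neg_one_smul ℝ (grad a x), c.n_smul_right]; ring] at h1
    rw [int_congr hD (f := fun x => H x * pf (c.T a x) (-st (tb c x)))
        (g := fun x => -(H x * pf (c.T a x) (st (tb c x)))) fun x _ => by
        rw [pf_neg_right]; ring,
      int_congr hD (f := fun x => H x * ((c.M x *ᵥ dv (fun y => st (tb c y)) x
          - fun k => pf (c.Nu x (Pi.single k 1)) (st (tb c x))) ⬝ᵥ grad a x))
        (g := fun x => -(H x * (cj (mat (c.J x)) (grad a x) ⬝ᵥ dv (fun y => st (tb c y)) x)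
          + H x * pf (c.Nu x (grad a x)) (st (tb c x)))) fun x _ => by
        rw [sub_dotProduct, cj_dot, dotProduct_comm, c.Nu_eq_sum x (grad a x)]
        simp only [Fin.sum_univ_four, pf_add_left, pf_smul_left, dotProduct, Ctx.M]
        ring,
      integral_neg, integral_neg, int_add hD c3 c2]
    linarith
  · exact continuous_finsetSum _ fun i _ => (contDiff_pd (comp_diff hX i) i).continuous
  · have h1 := integral_div hD (W := fun y => (h y * a y) • X y) ((hh.mul ha).smul hX)
      fun x hx => by simp [h0 x hx]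
    have c1 : Continuous fun x => h x * (X x ⬝ᵥ grad a x) :=
      hh.continuous.mul (hX.continuous.dotProduct (continuous_grad ha))
    have c2 : Continuous fun x => a x * (X x ⬝ᵥ grad h x) :=
      ha.continuous.mul (hX.continuous.dotProduct (continuous_grad hh))
    have c3 : Continuous fun x => a x * h x * ∑ i, pd i (fun y => X y i) x :=
      (ha.continuous.mul hh.continuous).mul
        (continuous_finsetSum _ fun i _ => (contDiff_pd (comp_diff hX i) i).continuous)
    rw [int_congr hD (g := fun x => (h x * (X x ⬝ᵥ grad a x) + a x * (X x ⬝ᵥ grad h x))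
        + a x * h x * ∑ i, pd i (fun y => X y i) x) fun x _ => by
        simp only [Pi.smul_apply, smul_eq_mul,
          pd_mul (diffAt (hh.mul ha) x) (diffAt (comp_diff hX _) x),
          pd_mul (diffAt hh x) (diffAt ha x), dotProduct, grad, Fin.sum_univ_four]
        ring,
      int_add hD (c1.fun_add c2) c3, int_add hD c1 c2] at h1
    linarith

end Pool.Agent.MP_13e7a1_an.H71
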