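import Pool.Agent.MP_13e7a1_an.H82.Spec

/-!
Unfolding lemmas for `wedge`, `proj`, `extd` in small degrees.
-/

open scoped ContDiff Topology Matrix
open Complex

noncomputable section

namespace Pool.Agent.MP_13e7a1_an.H71

open Pool.Agent.MP_13e7a1_an.H82

theorem sum_perm2 (G : Fin 2 → Fin 2 → ℂ) :
    ∑ σ : Equiv.Perm (Fin 2), ((Equiv.Perm.sign σ : ℤ) : ℂ) * G (σ 0) (σ 1) = G 0 1 - G 1 0 := by
  have h : (Finset.univ : Finset (Equiv.Perm (Fin 2))) = {1, Equiv.swap 0 1} := by decide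
  rw [h, Finset.sum_insert (by decide), Finset.sum_singleton]
  simp [sub_eq_add_neg]

theorem sum_perm3 (G : Fin 3 → Fin 3 → Fin 3 → ℂ) :
    ∑ σ : Equiv.Perm (Fin 3), ((Equiv.Perm.sign σ : ℤ) : ℂ) * G (σ 0) (σ 1) (σ 2) =
      G 0 1 2 - G 0 2 1 - G 1 0 2 + G 1 2 0 + G 2 0 1 - G 2 1 0 := by
  have h : (Finset.univ : Finset (Equiv.Perm (Fin 3))) =
      {1, Equiv.swap 1 2, Equiv.swap 0 1, Equiv.swap 0 1 * Equiv.swap 1 2,
        Equiv.swap 0 2 * Equiv.swap 1 2, Equiv.swap 0 2} := by decide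
  rw [h, Finset.sum_insert (by decide), Finset.sum_insert (by decide),
    Finset.sum_insert (by decide), Finset.sum_insert (by decide), Finset.sum_insert (by decide),
    Finset.sum_singleton]
  simp [Equiv.swap_apply_def]
  ring

theorem sum_perm4 (G : Fin 4 → Fin 4 → Fin 4 → Fin 4 → ℂ) :
    ∑ σ : Equiv.Perm (Fin 4), ((Equiv.Perm.sign σ : ℤ) : ℂ) * G (σ 0) (σ 1) (σ 2) (σ 3) =
      (G 0 1 2 3 - G 0 1 3 2 - G 0 2 1 3 + G 0 2 3 1 + G 0 3 1 2 - G 0 3 2 1)
      - (G 1 0 2 3 - G 1 0 3 2 - G 1 2 0 3 + G 1 2 3 0 + G 1 3 0 2 - G 1 3 2 0)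
      + (G 2 0 1 3 - G 2 0 3 1 - G 2 1 0 3 + G 2 1 3 0 + G 2 3 0 1 - G 2 3 1 0)
      - (G 3 0 1 2 - G 3 0 2 1 - G 3 1 0 2 + G 3 1 2 0 + G 3 2 0 1 - G 3 2 1 0) := by
  have key : ∀ p : Fin 4, ∑ e : Equiv.Perm (Fin 3),
      ((Equiv.Perm.sign (Equiv.Perm.decomposeFin.symm (p, e)) : ℤ) : ℂ) *
        G (Equiv.Perm.decomposeFin.symm (p, e) 0) (Equiv.Perm.decomposeFin.symm (p, e) 1)
          (Equiv.Perm.decomposeFin.symm (p, e) 2) (Equiv.Perm.decomposeFin.symm (p, e) 3) =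
      (if p = 0 then 1 else -1) * ∑ e : Equiv.Perm (Fin 3), ((Equiv.Perm.sign e : ℤ) : ℂ) *
        G p (Equiv.swap 0 p (e 0).succ) (Equiv.swap 0 p (e 1).succ)
          (Equiv.swap 0 p (e 2).succ) := by
    intro p
    rw [Finset.mul_sum]
    refine Finset.sum_congr rfl fun e _ => ?_
    have h1 := Equiv.Perm.decomposeFin_symm_apply_succ e p 0
    have h2 := Equiv.Perm.decomposeFin_symm_apply_succ e p 1
    have h3 := Equiv.Perm.decomposeFin_symm_apply_succ e p 2
    have e1 : (Fin.succ 0 : Fin 4) = 1 := rfl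
    have e2 : (Fin.succ 1 : Fin 4) = 2 := rfl
    have e3 : (Fin.succ 2 : Fin 4) = 3 := rfl
    rw [e1] at h1
    rw [e2] at h2
    rw [e3] at h3
    rw [h1, h2, h3, Equiv.Perm.decomposeFin_symm_apply_zero, Equiv.Perm.decomposeFin.symm_sign]
    split_ifs <;> simp
  rw [Finset.univ_perm_fin_succ, Finset.sum_map, Fintype.sum_prod_type]
  simp only [Equiv.toEmbedding_apply, key]
  rw [Fin.sum_univ_four,
    sum_perm3 (fun a b c => G 0 (Equiv.swap 0 0 a.succ) (Equiv.swap 0 0 b.succ)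
      (Equiv.swap 0 0 c.succ)),
    sum_perm3 (fun a b c => G 1 (Equiv.swap 0 1 a.succ) (Equiv.swap 0 1 b.succ)
      (Equiv.swap 0 1 c.succ)),
    sum_perm3 (fun a b c => G 2 (Equiv.swap 0 2 a.succ) (Equiv.swap 0 2 b.succ)
      (Equiv.swap 0 2 c.succ)),
    sum_perm3 (fun a b c => G 3 (Equiv.swap 0 3 a.succ) (Equiv.swap 0 3 b.succ)
      (Equiv.swap 0 3 c.succ))]
  have e1 : (Fin.succ 0 : Fin 4) = 1 := rfl
  have e2 : (Fin.succ 1 : Fin 4) = 2 := rfl
  have e3 : (Fin.succ 2 : Fin 4) = 3 := rfl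
  simp only [e1, e2, e3]
  simp [Equiv.swap_apply_def]
  ring

theorem wedge11 (α β : Form 1) (v : Fin 2 → E) :
    wedge α β v = α ![v 0] * β ![v 1] - α ![v 1] * β ![v 0] := by
  rw [← sum_perm2 (fun a b => α ![v a] * β ![v b])]
  unfold wedge
  simp only [Nat.factorial_one, Nat.cast_one, mul_one, div_one, mul_assoc]
  refine Finset.sum_congr rfl fun σ _ => ?_
  congr 3 <;> (funext i; fin_cases i; rfl)

theorem wedge12 (α : Form 1) (β : Form 2) (v : Fin 3 → E) :
    wedge α β v = (α ![v 0] * β ![v 1, v 2] - α ![v 0] * β ![v 2, v 1]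
      - α ![v 1] * β ![v 0, v 2] + α ![v 1] * β ![v 2, v 0]
      + α ![v 2] * β ![v 0, v 1] - α ![v 2] * β ![v 1, v 0]) / 2 := by
  rw [← sum_perm3 (fun a b c => α ![v a] * β ![v b, v c])]
  unfold wedge
  simp only [Nat.factorial_one, Nat.factorial_two, Nat.cast_one, one_mul, mul_assoc,
    Nat.cast_ofNat]
  congr 1
  refine Finset.sum_congr rfl fun σ _ => ?_
  congr 3 <;> (funext i; fin_cases i <;> rfl)

theorem wedge21 (α : Form 2) (β : Form 1) (v : Fin 3 → E) :
    wedge α β v = (α ![v 0, v 1] * β ![v 2] - α ![v 0, v 2] * β ![v 1]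
      - α ![v 1, v 0] * β ![v 2] + α ![v 1, v 2] * β ![v 0]
      + α ![v 2, v 0] * β ![v 1] - α ![v 2, v 1] * β ![v 0]) / 2 := by
  rw [← sum_perm3 (fun a b c => α ![v a, v b] * β ![v c])]
  unfold wedge
  simp only [Nat.factorial_one, Nat.factorial_two, Nat.cast_one, mul_one, mul_assoc,
    Nat.cast_ofNat]
  congr 1
  refine Finset.sum_congr rfl fun σ _ => ?_
  congr 3 <;> (funext i; fin_cases i <;> rfl)

theorem wedge22_sum (α β : Form 2) (v : Fin 4 → E) :
    wedge α β v = (∑ σ : Equiv.Perm (Fin 4), ((Equiv.Perm.sign σ : ℤ) : ℂ) *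
      (α ![v (σ 0), v (σ 1)] * β ![v (σ 2), v (σ 3)])) / 4 := by
  unfold wedge
  simp only [Nat.factorial_two, mul_assoc, Nat.cast_ofNat]
  congr 1
  · refine Finset.sum_congr rfl fun σ _ => ?_
    congr 3 <;> (funext i; fin_cases i <;> rfl)
  · norm_num

theorem wedge31_sum (α : Form 3) (β : Form 1) (v : Fin 4 → E) :
    wedge α β v = (∑ σ : Equiv.Perm (Fin 4), ((Equiv.Perm.sign σ : ℤ) : ℂ) *
      (α ![v (σ 0), v (σ 1), v (σ 2)] * β ![v (σ 3)])) / 6 := by
  unfold wedge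
  simp only [mul_assoc]
  congr 1
  · refine Finset.sum_congr rfl fun σ _ => ?_
    congr 3 <;> (funext i; fin_cases i <;> rfl)
  · norm_num [Nat.factorial]

theorem wedge13_sum (α : Form 1) (β : Form 3) (v : Fin 4 → E) :
    wedge α β v = (∑ σ : Equiv.Perm (Fin 4), ((Equiv.Perm.sign σ : ℤ) : ℂ) *
      (α ![v (σ 0)] * β ![v (σ 1), v (σ 2), v (σ 3)])) / 6 := by
  unfold wedge
  simp only [mul_assoc]
  congr 1
  · refine Finset.sum_congr rfl fun σ _ => ?_
    congr 3 <;> (funext i; fin_cases i <;> rfl)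
  · norm_num [Nat.factorial]

theorem univ1 : (Finset.univ : Finset (Finset (Fin 1))) = {∅, {0}} := by decide

theorem univ2 : (Finset.univ : Finset (Finset (Fin 2))) = {∅, {0}, {1}, {0, 1}} := by decide

theorem univ3 : (Finset.univ : Finset (Finset (Fin 3))) =
    {∅, {0}, {1}, {2}, {0, 1}, {0, 2}, {1, 2}, {0, 1, 2}} := by decide

theorem sumT1 (A : E →L[ℝ] E) (α : Form 1) (v : Fin 1 → E) (c : Fin 1 → ℂ) :
    ∑ T : Finset (Fin 1), (∏ m ∈ T, c m) / 2 ^ 1 * α (fun m => if m ∈ T then A (v m) else v m) =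
      (α ![v 0] + c 0 * α ![A (v 0)]) / 2 := by
  have h : ∀ T : Finset (Fin 1), (fun m => if m ∈ T then A (v m) else v m) =
      ![if 0 ∈ T then A (v 0) else v 0] := by
    intro T; funext i; fin_cases i; rfl
  simp only [h]
  rw [univ1, Finset.sum_insert (by decide), Finset.sum_singleton]
  simp
  ring

theorem sumT2 (A : E →L[ℝ] E) (α : Form 2) (v : Fin 2 → E) (c : Fin 2 → ℂ) :
    ∑ T : Finset (Fin 2), (∏ m ∈ T, c m) / 2 ^ 2 * α (fun m => if m ∈ T then A (v m) else v m) =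
      (α ![v 0, v 1] + c 0 * α ![A (v 0), v 1] + c 1 * α ![v 0, A (v 1)]
        + c 0 * c 1 * α ![A (v 0), A (v 1)]) / 4 := by
  have h : ∀ T : Finset (Fin 2), (fun m => if m ∈ T then A (v m) else v m) =
      ![if 0 ∈ T then A (v 0) else v 0, if 1 ∈ T then A (v 1) else v 1] := by
    intro T; funext i; fin_cases i <;> rfl
  simp only [h]
  rw [univ2, Finset.sum_insert (by decide), Finset.sum_insert (by decide),
    Finset.sum_insert (by decide), Finset.sum_singleton]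
  simp
  ring

theorem sumT3 (A : E →L[ℝ] E) (α : Form 3) (v : Fin 3 → E) (c : Fin 3 → ℂ) :
    ∑ T : Finset (Fin 3), (∏ m ∈ T, c m) / 2 ^ 3 * α (fun m => if m ∈ T then A (v m) else v m) =
      (α ![v 0, v 1, v 2] + c 0 * α ![A (v 0), v 1, v 2] + c 1 * α ![v 0, A (v 1), v 2]
        + c 2 * α ![v 0, v 1, A (v 2)] + c 0 * c 1 * α ![A (v 0), A (v 1), v 2]
        + c 0 * c 2 * α ![A (v 0), v 1, A (v 2)] + c 1 * c 2 * α ![v 0, A (v 1), A (v 2)]
        + c 0 * c 1 * c 2 * α ![A (v 0), A (v 1), A (v 2)]) / 8 := by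
  have h : ∀ T : Finset (Fin 3), (fun m => if m ∈ T then A (v m) else v m) =
      ![if 0 ∈ T then A (v 0) else v 0, if 1 ∈ T then A (v 1) else v 1,
        if 2 ∈ T then A (v 2) else v 2] := by
    intro T; funext i; fin_cases i <;> rfl
  simp only [h]
  rw [univ3, Finset.sum_insert (by decide), Finset.sum_insert (by decide),
    Finset.sum_insert (by decide), Finset.sum_insert (by decide), Finset.sum_insert (by decide),
    Finset.sum_insert (by decide), Finset.sum_insert (by decide), Finset.sum_singleton]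
  simp [Finset.prod_insert]
  ring

theorem proj10 (A : E →L[ℝ] E) (α : Form 1) (v : Fin 1 → E) :
    proj A 0 α v = (α ![v 0] + I * α ![A (v 0)]) / 2 := by
  unfold proj
  simp only [sumT1]
  simp

theorem proj11 (A : E →L[ℝ] E) (α : Form 1) (v : Fin 1 → E) :
    proj A 1 α v = (α ![v 0] - I * α ![A (v 0)]) / 2 := by
  unfold proj
  simp only [sumT1]
  have h : Finset.powersetCard 1 (Finset.univ : Finset (Fin 1)) = {{0}} := by decide
  rw [h]
  simp [sub_eq_add_neg]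

theorem proj20 (A : E →L[ℝ] E) (α : Form 2) (v : Fin 2 → E) :
    proj A 0 α v = (α ![v 0, v 1] + I * α ![A (v 0), v 1] + I * α ![v 0, A (v 1)]
        - α ![A (v 0), A (v 1)]) / 4 := by
  unfold proj
  simp only [sumT2]
  simp [sub_eq_add_neg]

theorem proj21 (A : E →L[ℝ] E) (α : Form 2) (v : Fin 2 → E) :
    proj A 1 α v = (α ![v 0, v 1] + α ![A (v 0), A (v 1)]) / 2 := by
  unfold proj
  simp only [sumT2]
  have h : Finset.powersetCard 1 (Finset.univ : Finset (Fin 2)) = {{0}, {1}} := by decide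
  rw [h, Finset.sum_insert (by decide), Finset.sum_singleton]
  simp
  ring

theorem proj22 (A : E →L[ℝ] E) (α : Form 2) (v : Fin 2 → E) :
    proj A 2 α v = (α ![v 0, v 1] - I * α ![A (v 0), v 1] - I * α ![v 0, A (v 1)]
        - α ![A (v 0), A (v 1)]) / 4 := by
  unfold proj
  simp only [sumT2]
  have h : Finset.powersetCard 2 (Finset.univ : Finset (Fin 2)) = {{0, 1}} := by decide
  rw [h, Finset.sum_singleton]
  simp [sub_eq_add_neg]

theorem proj32 (A : E →L[ℝ] E) (α : Form 3) (v : Fin 3 → E) :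
    proj A 2 α v = (3 * α ![v 0, v 1, v 2] - I * α ![A (v 0), v 1, v 2]
        - I * α ![v 0, A (v 1), v 2] - I * α ![v 0, v 1, A (v 2)] + α ![A (v 0), A (v 1), v 2]
        + α ![A (v 0), v 1, A (v 2)] + α ![v 0, A (v 1), A (v 2)]
        - 3 * I * α ![A (v 0), A (v 1), A (v 2)]) / 8 := by
  unfold proj
  simp only [sumT3]
  have h : Finset.powersetCard 2 (Finset.univ : Finset (Fin 3)) = {{0, 1}, {0, 2}, {1, 2}} := by
    decide
  rw [h, Finset.sum_insert (by decide), Finset.sum_insert (by decide), Finset.sum_singleton]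
  simp
  ring

theorem extd0 (α : E → Form 0) (x : E) (v : Fin 1 → E) :
    extd α x v = fderiv ℝ (fun y => α y ![]) x (v 0) := by
  unfold extd
  simp only [Fin.sum_univ_succ, Fin.sum_univ_zero, Fin.val_zero, pow_zero, one_mul, add_zero]
  congr 3
  funext y
  congr 1
  funext i; exact i.elim0

theorem extd1 (α : E → Form 1) (x : E) (v : Fin 2 → E) :
    extd α x v = fderiv ℝ (fun y => α y ![v 1]) x (v 0)
      - fderiv ℝ (fun y => α y ![v 0]) x (v 1) := by
  unfold extd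
  have h0 : (0 : Fin 2).removeNth v = ![v 1] := by funext i; fin_cases i; rfl
  have h1 : (1 : Fin 2).removeNth v = ![v 0] := by funext i; fin_cases i; rfl
  rw [Fin.sum_univ_two, h0, h1]
  simp [sub_eq_add_neg]

theorem extd2 (α : E → Form 2) (x : E) (v : Fin 3 → E) :
    extd α x v = fderiv ℝ (fun y => α y ![v 1, v 2]) x (v 0)
      - fderiv ℝ (fun y => α y ![v 0, v 2]) x (v 1)
      + fderiv ℝ (fun y => α y ![v 0, v 1]) x (v 2) := by
  unfold extd
  have h0 : (0 : Fin 3).removeNth v = ![v 1, v 2] := by funext i; fin_cases i <;> rfl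
  have h1 : (1 : Fin 3).removeNth v = ![v 0, v 2] := by funext i; fin_cases i <;> rfl
  have h2 : (2 : Fin 3).removeNth v = ![v 0, v 1] := by funext i; fin_cases i <;> rfl
  rw [Fin.sum_univ_three, h0, h1, h2]
  simp [sub_eq_add_neg]

end Pool.Agent.MP_13e7a1_an.H71
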